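import Pool.Agent.X186.IC.Clos
import Pool.Agent.Results.MP_9b53a1_co.CutwidthSix

set_option autoImplicit false
set_option linter.unusedSectionVars false

/-! # Nowhere-zero `Z_2^3`-flows with four lines: cubic graphs of a closed class

The class is closed under identification of vertices, edge-disjoint unions and sums along cuts with
at most three edges; it is the class `Closure` of
`Pool/Agent/Results/MP_40718a_co/CoverClosure.lean`. A finite graph, parallel edges allowed, has
vertex set `V` and edge set `E`; the ends of the edge `e` are `src e` and `dst e`. The argument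
after the covers by six even subgraphs is that of the starting files TreewidthFour and CutwidthSix
on this problem. -/

namespace Pool.Agent.Results.MP_9b53a1_co.CoverClosure

open Finset
open Pool.Agent.X186.IC (six_closure)
open Pool.Agent.Results.MP_40718a_co.CoverClosure (Closure)
open Pool.Agent.Results.MP_9b53a1_co.CutwidthSix (star fourLines P tt line_P line_tt choose_three
  at_vertex)

/-- **Theorem.** Let `G` be a finite cubic graph without loops of the class `Closure`: the least
class that contains all unions of two even subgraphs and all bridgeless graphs of treewidth at most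
four, of carving width at most five or of cutwidth at most six, and that is closed under
identification of vertices, edge-disjoint unions (on a common set of vertices) and sums along cuts
with at most three edges. Let the three edges at a vertex `v₀` be assigned to the three points of
one of the four lines in `fourLines`. Then this assignment extends to a nowhere-zero `Z_2^3`-flow of
`G` such that at every vertex the values form one of the four lines. -/
theorem result (V E : Type) [Fintype V] [DecidableEq V] [Fintype E] [DecidableEq E]
    (src dst : E → V) (hl : ∀ e, src e ≠ dst e) (hc : ∀ v, (star src dst v).card = 3)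
    (h : Closure src dst)
    (v₀ : V) (g : E → Fin 3 → ZMod 2) (hg : (star src dst v₀).image g ∈ fourLines) :
    ∃ f : E → Fin 3 → ZMod 2, (∀ e, f e ≠ 0) ∧ (∀ v, ∑ e ∈ star src dst v, f e = 0) ∧
      (∀ v, (star src dst v).image f ∈ fourLines) ∧ ∀ e ∈ star src dst v₀, f e = g e := by
  -- six even subgraphs
  obtain ⟨C, hC, h4⟩ := six_closure h
  -- the three matchings
  obtain ⟨a, u, ha, hst, hu, hu2⟩ := at_vertex hl hc hC h4 v₀
  have hg2 : ({g (a 0), g (a 1), g (a 2)} : Finset (Fin 3 → ZMod 2)) ∈ fourLines := by
    have : (star src dst v₀).image g = {g (a 0), g (a 1), g (a 2)} := by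
      rw [hst, image_image]
      ext p
      simp only [mem_image, mem_univ, true_and, Function.comp, Fin.exists_fin_succ, mem_insert,
        mem_singleton, IsEmpty.exists_iff, or_false]
      constructor
      · rintro (h | h | h)
        · exact Or.inl h.symm
        · exact Or.inr (Or.inl h.symm)
        · exact Or.inr (Or.inr h.symm)
      · rintro (h | h | h)
        · exact Or.inl h.symm
        · exact Or.inr (Or.inl h.symm)
        · exact Or.inr (Or.inr h.symm)
    rw [← this]
    exact hg
  obtain ⟨g0, g1, g2, g3⟩ := line_tt _ _ _ hg2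
  obtain ⟨σ, hσ, hσt⟩ := choose_three hu2 g0
  -- the values of the flow at a vertex
  have key : ∀ (b : Fin 3 → E) (w : Fin 6 → Fin 3), (∀ k j, b j ∈ C k ↔ w k ≠ j) → ∀ j,
      (fun i => if b j ∈ C (σ i) then (1 : ZMod 2) else 0) = P (fun i => w (σ i)) j := by
    intro b w hw j
    funext i
    unfold P
    by_cases h : w (σ i) = j
    · rw [if_pos h, if_neg]
      rw [hw]; exact fun h' => h' h
    · rw [if_neg h, if_pos]
      rw [hw]; exact h
  have hconst : ∀ (w : Fin 6 → Fin 3), (∀ j, (univ.filter fun k => w k = j).card = 2) →
      ¬ (w (σ 0) = w (σ 1) ∧ w (σ 1) = w (σ 2)) := by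
    rintro w hw ⟨h1, h2⟩
    have h3 := hw (w (σ 2))
    have h5 : ({σ 0, σ 1, σ 2} : Finset (Fin 6)) ⊆ univ.filter fun k => w k = w (σ 2) := by
      intro k hk
      simp only [mem_insert, mem_singleton] at hk
      rw [mem_filter]
      refine ⟨mem_univ _, ?_⟩
      rcases hk with rfl | rfl | rfl
      · exact h1.trans h2
      · exact h2
      · rfl
    have h6 := card_le_card h5
    rw [h3] at h6
    have h7 : ({σ 0, σ 1, σ 2} : Finset (Fin 6)).card = 3 := by
      rw [card_eq_three]
      exact ⟨_, _, _, fun h => absurd (hσ h) (by decide), fun h => absurd (hσ h) (by decide),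
        fun h => absurd (hσ h) (by decide), rfl⟩
    omega
  have hstar : ∀ v, ∃ (b : Fin 3 → E) (t : Fin 3 → Fin 3), Function.Injective b ∧
      star src dst v = univ.image b ∧ ¬ (t 0 = t 1 ∧ t 1 = t 2) ∧
      ∀ j, (fun i => if b j ∈ C (σ i) then (1 : ZMod 2) else 0) = P t j := by
    intro v
    obtain ⟨b, w, h1, h2, h3, h5⟩ := at_vertex hl hc hC h4 v
    exact ⟨b, fun i => w (σ i), h1, h2, hconst w h5, key b w h3⟩
  refine ⟨fun e i => if e ∈ C (σ i) then 1 else 0, fun e => ?_, fun v => ?_, fun v => ?_,
    fun e he => ?_⟩
  · obtain ⟨b, t, h1, h2, h3, h5⟩ := hstar (src e)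
    have h6 : e ∈ univ.image b := by rw [← h2]; simp [CutwidthSix.star]
    obtain ⟨j, _, rfl⟩ := mem_image.mp h6
    change (fun i => if b j ∈ C (σ i) then (1 : ZMod 2) else 0) ≠ 0
    rw [h5 j]
    exact (line_P t h3).2.2 j
  · obtain ⟨b, t, h1, h2, h3, h5⟩ := hstar v
    rw [h2, sum_image fun x _ y _ h => h1 h, Fin.sum_univ_three, h5, h5, h5]
    exact (line_P t h3).2.1
  · obtain ⟨b, t, h1, h2, h3, h5⟩ := hstar v
    have h6 : (star src dst v).image (fun e i => if e ∈ C (σ i) then (1 : ZMod 2) else 0) =
        {P t 0, P t 1, P t 2} := by
      rw [h2, image_image, ← h5 0, ← h5 1, ← h5 2]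
      ext p
      simp only [mem_image, mem_univ, true_and, Function.comp, Fin.exists_fin_succ, mem_insert,
        mem_singleton, IsEmpty.exists_iff, or_false]
      constructor
      · rintro (h | h | h)
        · exact Or.inl h.symm
        · exact Or.inr (Or.inl h.symm)
        · exact Or.inr (Or.inr h.symm)
      · rintro (h | h | h)
        · exact Or.inl h.symm
        · exact Or.inr (Or.inl h.symm)
        · exact Or.inr (Or.inr h.symm)
    rw [h6]
    exact (line_P t h3).1
  · rw [hst] at he
    obtain ⟨j, _, rfl⟩ := mem_image.mp he
    have h6 : (fun i => u (σ i)) = tt (g (a 0)) (g (a 1)) := funext hσt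
    change (fun i => if a j ∈ C (σ i) then (1 : ZMod 2) else 0) = g (a j)
    rw [key a u hu j, h6]
    fin_cases j
    · exact g1.symm
    · exact g2.symm
    · exact g3.symm

end Pool.Agent.Results.MP_9b53a1_co.CoverClosure
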